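import Pool.Agent.H78.Cappitt

namespace Pool.Agent.Results.MP_ca0bb9_al.Cyclic

open Pool.Agent.H78.Cappitt

/-- The closed derived subgroup of a pro-`p` group with proper non-trivial `St` is finite cyclic. -/
theorem result (p : ℕ) (hp : p.Prime) (G : Type*) [Group G] [TopologicalSpace G] [IsTopologicalGroup G]
    [CompactSpace G] [TotallyDisconnectedSpace G] (hG : IsProP p G) (h1 : St G ≠ ⊥) (hS : St G ≠ ⊤) :
    ∃ n, Nonempty ((commutator G).topologicalClosure ≃* Multiplicative (ZMod (p ^ n))) :=
  derived hp hG h1 hS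

end Pool.Agent.Results.MP_ca0bb9_al.Cyclic
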